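import Pool.Agent.Lib.MP_3fbd41_lc.Base

/-!
# The homotopy relations of the harmonic archipelago and of the Griffiths space are Borel
bireducible

Both relations are shown to be Borel bireducible with `E_1`.

* The Hawaiian earring is replaced by the space of sequences of unit complex numbers of which at
  most one is not `1`.  A path in it has holonomies in the free groups of finite rank, and loops
  with the same holonomies are homotopic (`null_of_hol`: the holonomies give a real tree through
  which the loop factors).
* Archipelago: the tips of the hills of index `≥ k` can be avoided by a homotopy for all large
  `k`, and the archipelago without these tips retracts to the circles of index `≥ k`, so that the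
  class of a loop is determined by the germ of its sequence of reduced words (`arch_iff`).
* Griffiths space: letters have two colours.  For a reduced infinite word let `D_k` delete all
  monochromatic blocks which contain one of the first `k` letters; `D_k` is multiplicative for
  large `k` (`DD_mul`), kills monochromatic words, and does not change the class in the Griffiths
  space (`map_Dl`, `kbar_DD`).  Hence the class of a loop is determined by the germ of the
  sequence `D_k` (`griff_iff`).
* Both invariants are Borel, which gives the reductions to `E_1`; conversely suitable infinite
  products of infinite words give continuous reductions of `E_1`.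
-/

/-- For every choice of the disks of the harmonic archipelago and all base points, the relations
of homotopy of loops in the archipelago and in the Griffiths space are Borel bireducible, and both
are Borel bireducible with `E_1`. -/
theorem Pool.Agent.Results.MP_3fbd41_lc.Bireducible.result :
    Nonempty Pool.Agent.MP3fbd41.Disks ∧
    ∀ (D : Pool.Agent.MP3fbd41.Disks) (x : Pool.Agent.MP3fbd41.archipelago D)
      (y : Pool.Agent.MP3fbd41.griffiths),
      Pool.Agent.MP3fbd41.BorelBireducible (Pool.Agent.MP3fbd41.LoopHomotopy x)
        (Pool.Agent.MP3fbd41.LoopHomotopy y) ∧
      Pool.Agent.MP3fbd41.BorelBireducible (Pool.Agent.MP3fbd41.LoopHomotopy x)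
        Pool.Agent.MP3fbd41.E1 ∧
      Pool.Agent.MP3fbd41.BorelBireducible (Pool.Agent.MP3fbd41.LoopHomotopy y)
        Pool.Agent.MP3fbd41.E1 :=
  ⟨Pool.Agent.MP3fbd41.nonempty_disks, fun D x y =>
    ⟨Pool.Agent.MP3fbd41.arch_griff D x y, Pool.Agent.MP3fbd41.arch_E1 D x,
      Pool.Agent.MP3fbd41.griff_E1 y⟩⟩
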